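import Pool.Agent.W247.ET.Stm

/-!
# The upper bound for the main quadratic form
-/

set_option autoImplicit false

open Finset MeasureTheory

namespace Pool.Agent.W356.ET.UPX

open Pool.Agent.W247.ET

theorem main (h1 : RS_stmt) (h2 : UPY_stmt) : Pool.Agent.W247.ET.UPX_stmt := by
  intro K J hJ
  obtain ⟨hQ, hR⟩ := h1
  obtain ⟨C1, hC1⟩ := hR K J
  obtain ⟨C2, hC2⟩ := h2 K J hJ
  refine ⟨315 / 16 * C2 + C1, fun B N hB hK => ?_⟩
  have hJ0 : (0 : ℝ) < J := by exact_mod_cast hJ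
  have hJ2 : (0 : ℝ) < (J : ℝ) ^ 2 := by positivity
  have e0 := hQ B N hB
  have e1 := hC2 (fun k => (rep B k : ℝ)) (2 * N) (fun n => ⟨Nat.cast_nonneg _, by
    exact_mod_cast hK n⟩)
  obtain ⟨S, hS⟩ : ∃ S : ℝ, S = ∑ i ∈ range J, ∑ i' ∈ range J, ∑ k ∈ Icc 1 (2 * N),
      (rep B (k + i) : ℝ) * (rep B (k + i') : ℝ) / (2 * (k : ℝ) + i + i') := ⟨_, rfl⟩
  have e2 : 315 / 16 * S - (J : ℝ) ^ 2 * C1 ≤
      ∑ i ∈ range J, ∑ i' ∈ range J, (QS P1 B i i' + QS P2 B i i') := by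
    have e3 : 315 / 16 * S - (J : ℝ) ^ 2 * C1 = ∑ i ∈ range J, ∑ i' ∈ range J,
        (315 / 16 * ∑ k ∈ Icc 1 (2 * N), (rep B (k + i) : ℝ) * rep B (k + i') /
          (2 * (k : ℝ) + i + i') - C1) := by
      rw [hS]
      simp only [sum_sub_distrib, ← mul_sum, sum_const, card_range, nsmul_eq_mul]
      ring
    rw [e3]
    refine sum_le_sum fun i hi => sum_le_sum fun i' hi' => ?_
    exact hC1 B N i i' hB hK (mem_range.1 hi) (mem_range.1 hi')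
  have e4 : 315 / 16 * (S / (J : ℝ) ^ 2) - C1 ≤
      (∑ i ∈ range J, ∑ i' ∈ range J, (QS P1 B i i' + QS P2 B i i')) / (J : ℝ) ^ 2 := by
    rw [le_div_iff₀ hJ2]
    refine le_trans (le_of_eq ?_) e2
    field_simp
  rw [← hS] at e1
  have e5 : ∑ n ∈ Icc 1 (2 * N), ((rep B n : ℝ) ^ 2 - M B J n ^ 2) / n =
      ∑ n ∈ Icc 1 (2 * N), (rep B n : ℝ) ^ 2 / n -
        ∑ k ∈ Icc 1 (2 * N), Mw (fun k => (rep B k : ℝ)) J k ^ 2 / k := by
    rw [← sum_sub_distrib]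
    refine sum_congr rfl fun n _ => ?_
    rw [sub_div]
    rfl
  unfold LK
  rw [e0, e5]
  linarith

end Pool.Agent.W356.ET.UPX
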